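import Pool.Agent.U84.AWQ.Stm2

/-!
# Project AWQ, package CORN

The corner of a central projection of a C*-algebra is a C*-algebra, and spectral approximation,
orthogonal suprema and proper infiniteness pass to it.
-/

set_option autoImplicit false

namespace Pool.Agent.U505.AWQ

open Pool.Agent.R456.CL Pool.Agent.U84.AWQ

universe u

noncomputable section corner

variable {A : Type u} [CStarAlgebra A]

theorem cp_mul_self {z : A} (hz : CP z) : z * z = z := hz.1.isIdempotentElem

theorem cp_star {z : A} (hz : CP z) : star z = z := hz.1.isSelfAdjoint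

/-- the corner of a central projection, as a non-unital star subalgebra. -/
def corS (z : A) (hz : CP z) : NonUnitalStarSubalgebra ℂ A where
  carrier := {x | z * x = x}
  add_mem' := by
    intro a b ha hb
    simp only [Set.mem_ofPred_eq] at ha hb ⊢
    rw [mul_add, ha, hb]
  zero_mem' := by simp
  mul_mem' := by
    intro a b ha hb
    simp only [Set.mem_ofPred_eq] at ha hb ⊢
    rw [← mul_assoc, ha]
  smul_mem' := by
    intro c a ha
    simp only [Set.mem_ofPred_eq] at ha ⊢
    rw [mul_smul_comm, ha]
  star_mem' := by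
    intro a ha
    simp only [Set.mem_ofPred_eq] at ha ⊢
    have h := congrArg star ha
    rw [star_mul, cp_star hz] at h
    rw [hz.2 (star a), h]

/-- the corner of a central projection. -/
def Cor (z : A) (hz : CP z) : Type u := corS z hz

variable {z : A} {hz : CP z}

theorem cor_one_mem : z ∈ corS z hz := cp_mul_self hz

instance : NonUnitalNormedRing (Cor z hz) := inferInstanceAs (NonUnitalNormedRing (corS z hz))

/-- the inclusion. -/
def phi (x : Cor z hz) : A := (show corS z hz from x).1

/-- elements of the corner. -/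
def mk (x : A) (h : z * x = x) : Cor z hz := (⟨x, h⟩ : corS z hz)

@[simp] theorem phi_mk (x : A) (h : z * x = x) : phi (mk x h : Cor z hz) = x := rfl

theorem phi_inj {x y : Cor z hz} (h : phi x = phi y) : x = y := Subtype.ext h

theorem z_phi (x : Cor z hz) : z * phi x = phi x := x.2

theorem phi_z (x : Cor z hz) : phi x * z = phi x := by rw [← hz.2, z_phi]

theorem phi_mul (x y : Cor z hz) : phi (x * y) = phi x * phi y := rfl
theorem phi_add (x y : Cor z hz) : phi (x + y) = phi x + phi y := rfl
theorem phi_sub (x y : Cor z hz) : phi (x - y) = phi x - phi y := rfl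
theorem phi_zero : phi (0 : Cor z hz) = 0 := rfl
theorem phi_norm (x : Cor z hz) : ‖x‖ = ‖phi x‖ := rfl

instance : NormedRing (Cor z hz) :=
  { (inferInstance : NonUnitalNormedRing (Cor z hz)) with
    one := mk z (cp_mul_self hz)
    one_mul := fun x => phi_inj (z_phi x)
    mul_one := fun x => phi_inj (phi_z x) }

theorem phi_one : phi (1 : Cor z hz) = z := rfl

instance : StarRing (Cor z hz) where
  star x := mk (star (phi x)) ((corS z hz).star_mem' x.2)
  star_involutive x := phi_inj (star_star (phi x))
  star_mul x y := phi_inj (star_mul (phi x) (phi y))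
  star_add x y := phi_inj (star_add (phi x) (phi y))

theorem phi_star (x : Cor z hz) : phi (star x) = star (phi x) := rfl

instance : NormedSpace ℂ (Cor z hz) := inferInstanceAs (NormedSpace ℂ (corS z hz))

theorem phi_smul (c : ℂ) (x : Cor z hz) : phi (c • x) = c • phi x := rfl

instance : Algebra ℂ (Cor z hz) :=
  Algebra.ofModule (fun c x y => phi_inj (by rw [phi_mul, phi_smul, phi_smul, phi_mul, smul_mul_assoc]))
    (fun c x y => phi_inj (by rw [phi_mul, phi_smul, phi_smul, phi_mul, mul_smul_comm]))

instance : NormedAlgebra ℂ (Cor z hz) where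
  norm_smul_le c x := norm_smul_le c x

instance : StarModule ℂ (Cor z hz) where
  star_smul c x := phi_inj (star_smul c (phi x))

instance : CStarRing (Cor z hz) where
  norm_mul_self_le x := by
    rw [phi_norm, phi_norm, phi_mul, phi_star]
    exact le_of_eq (CStarRing.norm_star_mul_self (x := phi x)).symm

instance : CompleteSpace (Cor z hz) := by
  have h : IsClosed ((corS z hz : NonUnitalStarSubalgebra ℂ A) : Set A) := by
    have : ((corS z hz : NonUnitalStarSubalgebra ℂ A) : Set A) = {x | z * x = x} := rfl
    rw [this]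
    exact isClosed_eq (continuous_const.mul continuous_id) continuous_id
  exact h.completeSpace_coe

instance : CStarAlgebra (Cor z hz) where

end corner

section transfer

variable {A : Type u} [CStarAlgebra A] {z : A} {hz : CP z}

theorem mk_phi (x : A) (h : z * x = x) (y : Cor z hz) : mk x h = y ↔ x = phi y :=
  ⟨fun e => by rw [← e]; rfl, fun e => phi_inj e⟩

theorem pj_phi {g : Cor z hz} (h : PJ g) : PJ (phi g) where
  isIdempotentElem := by
    have := congrArg phi h.isIdempotentElem.eq
    rw [phi_mul] at this
    exact this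
  isSelfAdjoint := by
    have := congrArg phi h.isSelfAdjoint.star_eq
    rw [phi_star] at this
    exact this

theorem pj_of_phi {g : Cor z hz} (h : PJ (phi g)) : PJ g where
  isIdempotentElem := phi_inj (by rw [phi_mul]; exact h.isIdempotentElem.eq)
  isSelfAdjoint := phi_inj (by rw [phi_star]; exact h.isSelfAdjoint.star_eq)

theorem phi_sum {ι : Type} (s : Finset ι) (f : ι → Cor z hz) :
    phi (∑ i ∈ s, f i) = ∑ i ∈ s, phi (f i) := by
  classical
  induction s using Finset.induction_on with
  | empty => simp [phi_zero]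
  | insert a s ha ih => rw [Finset.sum_insert ha, Finset.sum_insert ha, phi_add, ih]

theorem cor_psa (h : PSa A) : PSa (Cor z hz) := by
  intro g a hg ha hag δ hδ
  obtain ⟨ι, hι, p, l, hp, hpp, hs, hc, hn⟩ := h (phi g) (phi a) (pj_phi hg)
    (by rw [← phi_star, ha]) (by rw [← phi_mul, hag]) δ hδ
  have h1 : ∀ i, p i * phi g = p i := by
    intro i
    rw [← hs, Finset.mul_sum, Finset.sum_eq_single i]
    · exact (hp i).isIdempotentElem
    · intro j _ hj
      exact hpp i j (Ne.symm hj)
    · intro hi
      exact absurd (Finset.mem_univ i) hi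
  have h2 : ∀ i, z * p i = p i := by
    intro i
    rw [hz.2 (p i)]
    nth_rewrite 1 [← h1 i]
    rw [mul_assoc, phi_z, h1 i]
  refine ⟨ι, hι, fun i => mk (p i) (h2 i), l, fun i => pj_of_phi (hp i), ?_, ?_, ?_, ?_⟩
  · intro i j hij
    exact phi_inj (hpp i j hij)
  · apply phi_inj
    rw [phi_sum]
    exact hs
  · intro i
    exact phi_inj (hc i)
  · rw [phi_norm, phi_sub, phi_sum]
    exact hn

theorem cor_psupO (h : PSupO A) : PSupO (Cor z hz) := by
  intro ι e he hee
  obtain ⟨E, hE, hE1, hE2⟩ := h ι (fun i => phi (e i)) (fun i => pj_phi (he i))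
    (fun i j hij => by rw [← phi_mul, hee i j hij, phi_zero])
  have h1 : z * E = E := by
    have := hE2 (1 - z) (fun i => by rw [sub_mul, one_mul, z_phi, sub_self])
    rw [sub_mul, one_mul, sub_eq_zero] at this
    exact this.symm
  refine ⟨mk E h1, pj_of_phi hE, fun i => phi_inj (hE1 i), ?_⟩
  intro x hx
  apply phi_inj
  rw [phi_mul, phi_mk, phi_zero]
  exact hE2 (phi x) (fun i => by rw [← phi_mul, hx i, phi_zero])

theorem cp_phi {w : Cor z hz} (h : CP w) : CP (phi w) := by
  refine ⟨pj_phi h.1, fun x => ?_⟩
  have hx : z * (z * x) = z * x := by rw [← mul_assoc, cp_mul_self hz]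
  have h1 := congrArg phi (h.2 (mk (z * x) hx))
  rw [phi_mul, phi_mul, phi_mk] at h1
  calc phi w * x = phi w * z * x := by rw [phi_z]
    _ = phi w * (z * x) := by rw [mul_assoc]
    _ = z * x * phi w := h1
    _ = x * (z * phi w) := by rw [hz.2 x, mul_assoc]
    _ = x * phi w := by rw [z_phi]

theorem cor_pi (h : PI z) : PI (1 : Cor z hz) := by
  refine ⟨IsStarProjection.one _, fun w hw hw0 => ?_⟩
  rw [mul_one] at hw0 ⊢
  have h0 : phi w * z ≠ 0 := by
    rw [phi_z]
    intro e
    exact hw0 (phi_inj (by rw [e, phi_zero]))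
  obtain ⟨v, hv1, hv2, hv3⟩ := h.2 (phi w) (cp_phi hw) h0
  rw [phi_z] at hv1 hv2 hv3
  have hww : phi w * phi w = phi w := (pj_phi hw.1).isIdempotentElem
  have hws : star (phi w) = phi w := (pj_phi hw.1).isSelfAdjoint
  have h1 : v - v * phi w = 0 := by
    have h2 : star (v - v * phi w) * (v - v * phi w) = 0 := by
      rw [star_sub, star_mul, hws]
      calc (star v - phi w * star v) * (v - v * phi w)
          = star v * v - star v * v * phi w - phi w * (star v * v)
            + phi w * (star v * v) * phi w := by noncomm_ring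
        _ = 0 := by rw [hv1, hww, hww]; simp
    exact (CStarRing.star_mul_self_eq_zero_iff _).1 h2
  have h2 : v * phi w = v := (sub_eq_zero.1 h1).symm
  have h3 : z * v = v := by
    rw [hz.2 v]
    nth_rewrite 1 [← h2]
    rw [mul_assoc, phi_z, h2]
  refine ⟨mk v h3, phi_inj hv1, phi_inj hv2, fun e => hv3 ?_⟩
  have := congrArg phi e
  exact this

theorem cleanIn_phi {T : Cor z hz} (h : CleanIn 1 T) : CleanIn z (phi T) := by
  obtain ⟨P, h1, h2, h3, h4, h5, y, h6, h7, h8, h9⟩ := h
  refine ⟨phi P, z_phi P, phi_z P, ?_, ?_, ?_, phi y, z_phi y, phi_z y, ?_, ?_⟩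
  · rw [← phi_mul, h3]
  · rw [← phi_sub, z_phi]
  · rw [← phi_sub, phi_z]
  · rw [← phi_sub, ← phi_mul, h8, phi_one]
  · rw [← phi_sub, ← phi_mul, h9, phi_one]

end transfer

/-- Package CORN: the corner of a properly infinite central projection is clean as soon as all
properly infinite algebras with spectral approximation and orthogonal suprema are clean. -/
theorem t_CORN : S_CORN.{u} := by
  intro A _ hsa hsup z hz hpi H T
  have hT : z * (z * T) = z * T := by rw [← mul_assoc, cp_mul_self hz]
  have h := H (Cor z hz) (cor_psa hsa) (cor_psupO hsup) (cor_pi hpi) (mk (z * T) hT)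
  exact cleanIn_phi h

end Pool.Agent.U505.AWQ
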